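import Pool.Agent.Helper71.PR.Goals

/-!
# Project PR, packet IRR

Finitely many polynomials, each not identically zero on `SL_n(ℝ)`, are simultaneously nonzero at a point of a
Zariski dense subgroup.
-/

set_option autoImplicit false

namespace Pool.Agent.Helper79.PR

open Matrix Filter Topology Pool.Agent.Helper71.PR

/-- the determinant as a polynomial in the entries -/
noncomputable def DD (n : ℕ) : MvPolynomial (Fin n × Fin n) ℝ :=
  (Matrix.mvPolynomialX (Fin n) (Fin n) ℝ).det

lemma eval_DD {n : ℕ} (X : Mt n) : MvPolynomial.eval (fun e => X e.1 e.2) (DD n) = X.det := by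
  unfold DD
  rw [RingHom.map_det]
  congr 1
  ext i j
  simp [Matrix.mvPolynomialX, RingHom.mapMatrix_apply]

lemma hom {n : ℕ} (i0 : Fin n) (p : MvPolynomial (Fin n × Fin n) ℝ) :
    ∃ (d : ℕ) (q : MvPolynomial (Fin n × Fin n) ℝ), ∀ X : Mt n, X.det ≠ 0 →
      MvPolynomial.eval (fun e => X e.1 e.2) q = X.det ^ d *
        MvPolynomial.eval (fun e => (if e.2 = i0 then X.det⁻¹ else 1) * X e.1 e.2) p := by
  induction p using MvPolynomial.induction_on with
  | C a => exact ⟨0, MvPolynomial.C a, fun X _ => by simp⟩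
  | add p1 p2 h1 h2 =>
    obtain ⟨d1, q1, h1⟩ := h1
    obtain ⟨d2, q2, h2⟩ := h2
    refine ⟨d1 + d2, DD n ^ d2 * q1 + DD n ^ d1 * q2, fun X hX => ?_⟩
    simp only [map_add, map_mul, map_pow, eval_DD, h1 X hX, h2 X hX]
    ring
  | mul_X p e h =>
    obtain ⟨d, q, h⟩ := h
    by_cases he : e.2 = i0
    · refine ⟨d + 1, q * MvPolynomial.X e, fun X hX => ?_⟩
      simp only [map_mul, MvPolynomial.eval_X, h X hX, he, if_true]
      generalize (MvPolynomial.eval fun e => (if e.2 = i0 then X.det⁻¹ else 1) * X e.1 e.2) p = w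
      have hc : X.det ^ (d + 1) * X.det⁻¹ = X.det ^ d := by
        rw [pow_succ, mul_assoc, mul_inv_cancel₀ hX, mul_one]
      calc X.det ^ d * w * X e.1 i0 = (X.det ^ (d + 1) * X.det⁻¹) * w * X e.1 i0 := by rw [hc]
        _ = X.det ^ (d + 1) * (w * (X.det⁻¹ * X e.1 i0)) := by ring
    · refine ⟨d, q * MvPolynomial.X e, fun X hX => ?_⟩
      simp only [map_mul, MvPolynomial.eval_X, h X hX, he, if_false]
      ring

theorem irr : G_IRR := by
  intro n hn Γ hZ ι _ p hp
  classical
  by_contra hcon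
  push Not at hcon
  have hall := hZ (∏ i, p i) (fun γ hγ => by
    obtain ⟨i, hi⟩ := hcon γ hγ
    rw [map_prod]
    exact Finset.prod_eq_zero (Finset.mem_univ i) hi)
  let i0 : Fin n := ⟨0, by omega⟩
  choose d q hq using fun i => hom i0 (p i)
  have hq0 : ∀ i, q i ≠ 0 := by
    intro i h0
    obtain ⟨g, hg⟩ := hp i
    apply hg
    have h1 := hq i g.1 (by rw [g.2]; exact one_ne_zero)
    rw [h0, g.2] at h1
    simp only [map_zero, one_pow, one_mul, inv_one, ite_self] at h1
    exact h1.symm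
  have hD0 : DD n ≠ 0 := by
    intro h0
    have h1 := eval_DD (1 : Mt n)
    rw [h0] at h1
    simp at h1
  have hne : DD n * ∏ i, q i ≠ 0 :=
    mul_ne_zero hD0 (Finset.prod_ne_zero_iff.mpr fun i _ => hq0 i)
  have hex : ∃ x : Fin n × Fin n → ℝ, MvPolynomial.eval x (DD n * ∏ i, q i) ≠ 0 := by
    by_contra hno
    push Not at hno
    apply hne
    apply MvPolynomial.funext
    intro x
    rw [hno x, map_zero]
  obtain ⟨x, hx⟩ := hex
  let X : Mt n := fun i j => x (i, j)
  have hX : (fun e : Fin n × Fin n => X e.1 e.2) = x := by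
    funext e
    rfl
  rw [map_mul, map_prod, ← hX, eval_DD] at hx
  have hdet : X.det ≠ 0 := left_ne_zero_of_mul hx
  have hqs : ∀ i, MvPolynomial.eval (fun e => X e.1 e.2) (q i) ≠ 0 := by
    intro i
    exact (Finset.prod_ne_zero_iff.mp (right_ne_zero_of_mul hx)) i (Finset.mem_univ i)
  let v : Fin n → ℝ := fun j => if j = i0 then X.det⁻¹ else 1
  have hY : (Matrix.of fun i j => v j * X i j : Mt n).det = 1 := by
    rw [Matrix.det_mul_row]
    have : ∏ j, v j = X.det⁻¹ := by
      simp [v, Finset.prod_ite_eq']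
    rw [this]
    exact inv_mul_cancel₀ hdet
  let g : SLn n := ⟨Matrix.of fun i j => v j * X i j, hY⟩
  have h2 := hall g
  rw [map_prod] at h2
  obtain ⟨i, -, hi⟩ := Finset.prod_eq_zero_iff.mp h2
  apply hqs i
  rw [hq i X hdet]
  have h3 : MvPolynomial.eval (fun e => (if e.2 = i0 then X.det⁻¹ else 1) * X e.1 e.2) (p i) = 0 := hi
  rw [h3, mul_zero]

end Pool.Agent.Helper79.PR
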